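import Mathlib
import Pool.Agent.J4H26.KP.Q2
import Pool.Agent.J4H94.PC.Corr1

set_option autoImplicit false

/-! Project KP, job L8: ingredients. -/

namespace Pool.Agent.J4H30.KP

open Finset Filter Real
open Pool.Agent.J4H39 (T od ex pb ns rn stP stK Rel GS th0 Gd Per id1 id1_pos id1_neg id1_nonneg id1_le_one
  ex_mono ex_congr ex_add ex_mul ex_const ex_sum)
open Pool.Agent.J4H26.PC (Iv)
open Pool.Agent.J4H26.KP

/-- powers -/
theorem rpow_beats {p q c C : ℝ} (hpq : p < q) (hc : 0 < c) (hC : 0 < C) :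
    ∀ᶠ t : ℕ in atTop, C * (t : ℝ) ^ p ≤ (c * t) ^ q := by
  have h1 : Tendsto (fun t : ℕ => (t : ℝ) ^ (q - p)) atTop atTop :=
    (tendsto_rpow_atTop (by linarith)).comp tendsto_natCast_atTop_atTop
  filter_upwards [h1.eventually_ge_atTop (C / c ^ q), eventually_ge_atTop 1] with t h2 h3
  have ht : (0 : ℝ) < t := by exact_mod_cast h3
  rw [Real.mul_rpow hc.le ht.le]
  have h4 : (t : ℝ) ^ q = t ^ p * t ^ (q - p) := by
    rw [← Real.rpow_add ht]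
    congr 1
    ring
  rw [h4]
  have hcq : 0 < c ^ q := Real.rpow_pos_of_pos hc q
  rw [div_le_iff₀ hcq] at h2
  calc C * (t : ℝ) ^ p ≤ ((t : ℝ) ^ (q - p) * c ^ q) * t ^ p := mul_le_mul_of_nonneg_right h2 (by positivity)
    _ = _ := by ring

/-- the deviation -/
noncomputable def de (t : ℕ) : ℕ := ⌊(t : ℝ) ^ (103 / 200 : ℝ)⌋₊

theorem Gd_small {ε : ℝ} (hε : 0 < ε) : ∀ᶠ t : ℕ in atTop,
    pb t (fun y => ¬ Gd t (4 ^ de t : ℕ) (de t : ℕ) y) ≤ ε := by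
  have hu : Tendsto (fun t : ℕ => (t : ℝ) ^ (1 / 100 : ℝ)) atTop atTop :=
    (tendsto_rpow_atTop (by norm_num)).comp tendsto_natCast_atTop_atTop
  have h1 := ((Real.tendsto_pow_mul_exp_neg_atTop_nhds_zero 200).comp hu).eventually
    (gt_mem_nhds (show (0 : ℝ) < ε / 6 by positivity))
  filter_upwards [h1, hu.eventually_ge_atTop 3, eventually_ge_atTop 1] with t h1 h3 ht
  have ht1 : (1 : ℝ) ≤ t := by exact_mod_cast ht
  have ht0 : (0 : ℝ) < t := by linarith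
  obtain ⟨u, hu⟩ : ∃ u, u = (t : ℝ) ^ (1 / 100 : ℝ) := ⟨_, rfl⟩
  obtain ⟨v, hv⟩ : ∃ v, v = (t : ℝ) ^ (103 / 200 : ℝ) := ⟨_, rfl⟩
  simp only [Function.comp_apply] at h1
  rw [← hu] at h1 h3
  have htu : u ^ 200 = (t : ℝ) ^ 2 := by
    rw [hu, ← Real.rpow_natCast, ← Real.rpow_mul ht0.le, ← Real.rpow_natCast (t : ℝ) 2]
    norm_num
  have hv2 : v ^ 2 = t * u ^ 3 := by
    rw [hu, hv, ← Real.rpow_natCast, ← Real.rpow_natCast, ← Real.rpow_mul ht0.le, ← Real.rpow_mul ht0.le]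
    nth_rewrite 2 [← Real.rpow_one (t : ℝ)]
    rw [← Real.rpow_add ht0]
    norm_num
  have hvu : 3 * u ≤ v := by
    have a1 : v = u * (t : ℝ) ^ (101 / 200 : ℝ) := by
      rw [hu, hv, ← Real.rpow_add ht0]
      norm_num
    have a2 : u ≤ (t : ℝ) ^ (101 / 200 : ℝ) := by
      rw [hu]
      exact Real.rpow_le_rpow_of_exponent_le ht1 (by norm_num)
    rw [a1]
    nlinarith
  have hd : v / 2 ≤ de t := by
    have a1 : v < de t + 1 := by
      rw [hv]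
      exact Nat.lt_floor_add_one _
    linarith
  have hdu : u ≤ de t := by linarith
  have hd0 : (0 : ℝ) ≤ de t := by positivity
  have e1 : u ≤ (de t : ℝ) ^ 2 / (2 * t) := by
    rw [le_div_iff₀ (by positivity)]
    have a1 : (v / 2) ^ 2 ≤ (de t : ℝ) ^ 2 := pow_le_pow_left₀ (by linarith) hd 2
    have a2 : (v / 2) ^ 2 = t * u ^ 3 / 4 := by
      rw [div_pow, hv2]
      norm_num
    have a3 : u * (2 * t) ≤ t * u ^ 3 / 4 := by
      have : 9 ≤ u ^ 2 := by nlinarith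
      have : 0 ≤ t * u := by positivity
      nlinarith
    linarith
  have e2 : Real.exp (-((de t : ℝ) ^ 2 / (2 * t))) ≤ Real.exp (-u) := Real.exp_le_exp.2 (by linarith)
  have e3 : (t : ℝ) / (4 * ((4 ^ de t : ℕ) : ℝ)) ≤ t * Real.exp (-u) := by
    have a1 : Real.exp u ≤ ((4 ^ de t : ℕ) : ℝ) := by
      push_cast
      calc Real.exp u ≤ Real.exp (de t) := Real.exp_le_exp.2 hdu
        _ = Real.exp 1 ^ de t := by rw [← Real.exp_nat_mul, mul_one]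
        _ ≤ 4 ^ de t := by
            apply pow_le_pow_left₀ (Real.exp_pos 1).le
            have := Real.exp_one_lt_d9
            linarith
    rw [Real.exp_neg, div_eq_mul_inv]
    apply mul_le_mul_of_nonneg_left _ ht0.le
    apply inv_anti₀ (Real.exp_pos u)
    have := Real.exp_pos u
    linarith
  have key := Pool.Agent.J4H39.pb_Gd (t := t) (L := 4 ^ de t) (Nat.one_le_pow _ _ (by norm_num)) ht
    (δ := (de t : ℕ)) (by positivity)
  refine key.trans ?_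
  have hexp := Real.exp_pos (-u)
  have a4 : (t : ℝ) / (4 * ((4 ^ de t : ℕ) : ℝ)) + 2 * Real.exp (-((de t : ℝ) ^ 2 / (2 * t))) ≤
      3 * t * Real.exp (-u) := by
    have : Real.exp (-u) ≤ t * Real.exp (-u) := by nlinarith
    linarith
  calc ((t : ℝ) + 1) * ((t : ℝ) / (4 * ((4 ^ de t : ℕ) : ℝ)) + 2 * Real.exp (-((de t : ℝ) ^ 2 / (2 * t)))) ≤
        (2 * t) * (3 * t * Real.exp (-u)) := by
          apply mul_le_mul (by linarith) a4 _ (by positivity)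
          have := Real.exp_pos (-((de t : ℝ) ^ 2 / (2 * t)))
          positivity
    _ = 6 * (u ^ 200 * Real.exp (-u)) := by rw [htu]; ring
    _ ≤ ε := by linarith

theorem de_le (t : ℕ) : (de t : ℝ) ≤ (t : ℝ) ^ (103 / 200 : ℝ) := Nat.floor_le (by positivity)

/-- good points -/
def Gg {K : ℕ} (t : ℕ) (D : Fin K → ℕ) (y : ℤ) : Prop :=
  Gd t (4 ^ de t : ℕ) (de t : ℕ) y ∧ ∀ i, Gd t (4 ^ de t : ℕ) (de t : ℕ) (3 ^ D i * y)

theorem pb_ng {K : ℕ} (t : ℕ) (D : Fin K → ℕ) : pb t (fun y => ¬ Gg t D y) ≤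
    (K + 1) * pb t (fun y => ¬ Gd t (4 ^ de t : ℕ) (de t : ℕ) y) := by
  have h1 : ∀ y, ¬ Gg t D y → (¬ Gd t (4 ^ de t : ℕ) (de t : ℕ) y) ∨
      ∃ i ∈ (univ : Finset (Fin K)), ¬ Gd t (4 ^ de t : ℕ) (de t : ℕ) (3 ^ D i * y) := by
    intro y hy
    by_contra hcon
    push Not at hcon
    exact hy ⟨hcon.1, fun i => hcon.2 i (mem_univ i)⟩
  refine (Pool.Agent.J4H39.pb_mono h1).trans ((Pool.Agent.J4H39.pb_or _ _ _).trans ?_)
  have h2 := Pool.Agent.J4H39.pb_exists (univ : Finset (Fin K)) t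
    (fun i y => ¬ Gd t (4 ^ de t : ℕ) (de t : ℕ) (3 ^ D i * y))
  have h3 : ∀ i : Fin K, pb t (fun y => ¬ Gd t (4 ^ de t : ℕ) (de t : ℕ) (3 ^ D i * y)) =
      pb t (fun y => ¬ Gd t (4 ^ de t : ℕ) (de t : ℕ) y) := by
    intro i
    have := Pool.Agent.J4H39.pb_affine (Pool.Agent.J4H39.per_nGd t (4 ^ de t) (de t : ℕ))
      (Pool.Agent.J4H39.pow3_odd (D i)) 0
    simpa only [add_zero] using this
  rw [sum_congr rfl fun i _ => h3 i, sum_const, card_univ, Fintype.card_fin, nsmul_eq_mul] at h2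
  linarith

theorem rel_pair (a b : ℕ) (y : ℤ) : Rel ((b : ℤ) - a, 0) (3 ^ a * y) (3 ^ b * y) := by
  unfold Pool.Agent.J4H39.Rel
  simp only [add_zero]
  rw [← mul_assoc, ← mul_assoc, ← pow_add, ← pow_add]
  congr 2
  omega

theorem rel_base (a : ℕ) (y : ℤ) : Rel ((a : ℤ), 0) y (3 ^ a * y) := by
  have := Pool.Agent.J4H39.rel_nat a 0 y
  rwa [add_zero] at this

/-- labels of a pair -/
theorem pair_lab (a b t : ℕ) (y : ℤ) :
    (rn stP t ((b : ℤ) - a, 0) (3 ^ a * y)).1 = (rn stP t ((b : ℤ), 0) y).1 - (rn stP t ((a : ℤ), 0) y).1 ∧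
    (rn stP t ((a : ℤ), 0) y ≠ rn stP t ((b : ℤ), 0) y → rn stP t ((b : ℤ) - a, 0) (3 ^ a * y) ≠ (0, 0)) := by
  obtain ⟨h1, h2⟩ := Pool.Agent.J4H39.rel_rn (rel_base a y) t
  obtain ⟨h3, h4⟩ := Pool.Agent.J4H39.rel_rn (rel_base b y) t
  obtain ⟨h5, h6⟩ := Pool.Agent.J4H39.rel_rn (rel_pair a b y) t
  simp only at h2 h4 h6
  have e1 : (rn stP t ((b : ℤ) - a, 0) (3 ^ a * y)).1 =
      (rn stP t ((b : ℤ), 0) y).1 - (rn stP t ((a : ℤ), 0) y).1 := by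
    rw [h2, h4, h6]
    ring
  refine ⟨e1, fun hne h0 => hne ?_⟩
  rw [h0] at h5 e1
  have hY : T^[t] (3 ^ b * y) = T^[t] (3 ^ a * y) := by
    unfold Pool.Agent.J4H39.Rel at h5
    simpa using h5
  rw [hY] at h3
  exact Pool.Agent.J4H39.rel_eq h1 h3 (by simp only at e1; omega)

theorem ns_zero (k : ℕ) : ns k (0, 0) = 0 := by
  have e1 : ∀ y : ℤ, id1 (rn stP k (0, 0) y ≠ (0, 0)) = 0 := by
    intro y
    rw [Pool.Agent.J4H39.rn_zero]
    exact id1_neg (fun h => h rfl)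
  have e2 : ns k (0, 0) = ex k (fun y => id1 (rn stP k (0, 0) y ≠ (0, 0))) := rfl
  rw [e2, ex_congr e1, ex_const]

/-- the weight of a pair -/
noncomputable def Wp (t k : ℕ) (σ : ℤ × ℤ) (z : ℤ) : ℝ :=
  id1 (rn stP t σ z ≠ (0, 0)) + (-1) * ns k (rn stP t σ z)

theorem Wp_nonneg (t k : ℕ) (σ : ℤ × ℤ) (z : ℤ) : 0 ≤ Wp t k σ z := by
  unfold Wp
  by_cases hz : rn stP t σ z = (0, 0)
  · rw [hz, ns_zero, id1_neg (fun h => h rfl)]
    norm_num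
  · rw [id1_pos hz]
    have := Pool.Agent.J4H39.ns_le_one k (rn stP t σ z)
    linarith

theorem ex_Wp (t k : ℕ) (σ : ℤ × ℤ) (a : ℕ) : ex t (fun y => Wp t k σ (3 ^ a * y)) = ns t σ - ns (t + k) σ := by
  have hP : Per t (Wp t k σ) := by
    intro x u
    unfold Wp
    rw [Pool.Agent.J4H39.per_rn stP σ (le_refl t) x u]
  have h1 := Pool.Agent.J4H39.ex_affine t hP (Pool.Agent.J4H39.pow3_odd a) 0
  simp only [add_zero] at h1
  rw [h1]
  unfold Wp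
  rw [ex_add, ex_mul, Pool.Agent.J4H39.ns_tower]
  have : ex t (fun y => id1 (rn stP t σ y ≠ (0, 0))) = ns t σ := rfl
  rw [this]
  ring

theorem ccK_bd {K : ℕ} {F : Fin K → ℤ → ℝ} (hF : ∀ i, Iv (F i)) (κ : ℝ) {X : ℝ} (hX : 0 ≤ X) (D : Fin K → ℕ)
    (r : Fin K → ℤ) : |ccK F κ X D r| ≤ 2 := by
  unfold ccK
  have hm : 0 < max X 1 := lt_max_of_lt_right one_pos
  rw [abs_div, abs_of_pos hm, div_le_iff₀ hm]
  refine (abs_sum_le_sum_abs _ _).trans ?_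
  have h1 : ∀ n ∈ Finset.Ico ⌈κ * X⌉ ⌈κ * X + X⌉, |∏ i, F i (3 ^ D i * n + r i)| ≤ 1 := fun n _ => by
    rw [Finset.abs_prod]
    exact Finset.prod_le_one (fun i _ => abs_nonneg _) (fun i _ => (hF i).bd _)
  refine (sum_le_sum h1).trans ?_
  rw [sum_const, Int.card_Ico, nsmul_eq_mul, mul_one]
  have h2 : (⌈κ * X + X⌉ : ℝ) < κ * X + X + 1 := Int.ceil_lt_add_one _
  have h3 : κ * X ≤ (⌈κ * X⌉ : ℝ) := Int.le_ceil _
  have h0 : 0 ≤ ⌈κ * X + X⌉ - ⌈κ * X⌉ := by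
    have : ⌈κ * X⌉ ≤ ⌈κ * X + X⌉ := Int.ceil_mono (by linarith)
    omega
  have h4 : (((⌈κ * X + X⌉ - ⌈κ * X⌉).toNat : ℕ) : ℝ) = (⌈κ * X + X⌉ : ℝ) - ⌈κ * X⌉ := by
    have : (((⌈κ * X + X⌉ - ⌈κ * X⌉).toNat : ℕ) : ℤ) = ⌈κ * X + X⌉ - ⌈κ * X⌉ := Int.toNat_of_nonneg h0
    exact_mod_cast this
  rw [h4]
  have h5 : X ≤ max X 1 := le_max_left _ _
  have h6 : 1 ≤ max X 1 := le_max_right _ _
  linarith

theorem mP_bd {K : ℕ} {ψ : ℝ → ℝ} {F : Fin K → ℤ → ℝ} {κ : ℝ} {m : Finset (Fin K) → ℝ} (hc : CentK ψ F κ m)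
    (s : Fin K → ℤ × ℤ) : |mP m s| ≤ 1 := by
  unfold mP mR
  rw [Finset.abs_prod]
  apply Finset.prod_le_one (fun _ _ => abs_nonneg _)
  intro B hB
  obtain ⟨i, _, rfl⟩ := mem_image.1 hB
  exact (hc _ ⟨i, by simp⟩).2.1

theorem cent_iv {K : ℕ} {ψ : ℝ → ℝ} {F : Fin K → ℤ → ℝ} {κ : ℝ} {m : Finset (Fin K) → ℝ} (hc : CentK ψ F κ m)
    (i : Fin K) : Iv (F i) ∧ |κ| ≤ 1 := by
  obtain ⟨h1, -, q, h2⟩ := hc {i} ⟨i, by simp⟩
  refine ⟨?_, h2.kp⟩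
  have e : (fun n => ∏ j ∈ ({i} : Finset (Fin K)), F j n) = F i := by
    funext n
    simp
  rwa [e] at h1

end Pool.Agent.J4H30.KP
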