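import Mathlib
import Pool.Agent.J4H30.KP.Cor1

set_option autoImplicit false

/-! Project KP, job L8: `S_COR2`. -/

namespace Pool.Agent.J4H30.KP

open Finset Filter Real
open Pool.Agent.J4H39 (T od ex pb ns rn stP stK Rel GS th0 Gd Per id1 id1_pos id1_neg id1_nonneg id1_le_one
  ex_mono ex_congr ex_add ex_mul ex_const ex_sum)
open Pool.Agent.J4H26.PC (Iv)
open Pool.Agent.J4H26.KP

/-- no forms -/
theorem cor_zero (hB : S_BLK2) (ψ : ℝ → ℝ) (hψ : Tendsto ψ atTop (nhds 0)) {ε : ℝ} (hε : 0 < ε) {η : ℝ}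
    (hη : 0 < η) (hη1 : η < 1) : ∀ᶠ t : ℕ in atTop, ∀ (F : Fin 0 → ℤ → ℝ) (κ : ℝ)
    (m : Finset (Fin 0) → ℝ), CentK ψ F κ m → ∀ X : ℝ, 0 < X → (1 + η) * th0 * t ≤ logb 2 X →
    logb 2 X ≤ (1 + 2 * η) * th0 * t → ∀ D : Fin 0 → ℕ,
    |ccK F κ X D (fun _ => 0) - ex t (fun y => mP m (rn stK t (fun i => ((D i : ℤ), 0)) y))| ≤ ε := by
  have hth := Pool.Agent.J4H39.th0_gt
  obtain ⟨G, hG, hB⟩ := hB ψ hψ 0 ε hε
  have hL : Tendsto (fun t : ℕ => ⌊th0 * (t : ℝ)⌋₊) atTop atTop :=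
    tendsto_nat_floor_atTop.comp (tendsto_natCast_atTop_atTop.const_mul_atTop (by linarith))
  filter_upwards [hL.eventually hB, eventually_ge_atTop 20] with t hB ht F κ m hc X hX hX1 hX2 D
  have ht0 : (20 : ℝ) ≤ t := by exact_mod_cast ht
  have h4 : 4 ≤ th0 * t := by nlinarith
  have f1 : ((⌊th0 * (t : ℝ)⌋₊ : ℕ) : ℝ) ≤ th0 * t := Nat.floor_le (by positivity)
  have f2 : th0 * (t : ℝ) < (⌊th0 * (t : ℝ)⌋₊ : ℕ) + 1 := Nat.lt_floor_add_one _
  have h1 := hB F κ m hc X hX (by nlinarith) (by nlinarith) (fun i => i.elim0) (fun i => i.elim0)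
    (fun i => i.elim0)
  have e1 : ccK F κ X D (fun _ => 0) = cl F κ X (fun i => i.elim0) := by
    unfold cl
    congr 1
    · exact Subsingleton.elim _ _
    · exact Subsingleton.elim _ _
  have e2 : ex t (fun y => mP m (rn stK t (fun i => ((D i : ℤ), 0)) y)) = mP m (fun i => i.elim0) := by
    rw [ex_congr (g := fun _ => mP m (fun i => i.elim0)) (fun y => by
      congr 1
      exact Subsingleton.elim _ _), ex_const]
  rw [e1, e2]
  exact h1

theorem t_COR2 : S_TR2 → S_BLK2 → S_NSL → S_COR2 := by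
  intro hT hB hN ψ hψ K ε η' hε hη'
  have hth := Pool.Agent.J4H39.th0_gt
  have hth1 := Pool.Agent.J4H39.th0_lt
  rcases Nat.eq_zero_or_pos K with rfl | hK
  · refine ⟨1, one_pos, fun η hη hη1 => ?_⟩
    filter_upwards [cor_zero hB ψ hψ hε hη hη1] with t h F κ m hc X hX hX1 hX2 D _
    have := h F κ m hc X hX hX1 hX2 D
    simpa using this
  obtain ⟨G, hG, hB⟩ := hB ψ hψ K (ε / 4) (by positivity)
  refine ⟨min 1 (η' / (128 * G ^ 2)), lt_min one_pos (by positivity), fun η hη hη0 => ?_⟩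
  have hη1 : η < 1 := lt_of_lt_of_le hη0 (min_le_left _ _)
  have hη2 : η * (128 * G ^ 2) < η' := by
    have := lt_of_lt_of_le hη0 (min_le_right _ _)
    rwa [lt_div_iff₀ (by positivity)] at this
  have hηt : 0 < η * th0 := by positivity
  have hLt : Tendsto (fun t : ℕ => ⌊3 / 4 * (η * th0) * (t : ℝ)⌋₊) atTop atTop :=
    tendsto_nat_floor_atTop.comp (tendsto_natCast_atTop_atTop.const_mul_atTop (by positivity))
  have hkt : Tendsto (fun t : ℕ => ⌊η' * (t : ℝ)⌋₊) atTop atTop :=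
    tendsto_nat_floor_atTop.comp (tendsto_natCast_atTop_atTop.const_mul_atTop hη')
  filter_upwards [hT K (1 + η) (ε / 4) (by linarith) (by positivity), hLt.eventually hB,
    hkt.eventually (hN (1 / 4) (by norm_num)), Gd_small (ε := ε / (12 * (K + 1))) (by positivity),
    rpow_beats (p := 103 / 200) (q := 1) (c := η * th0 / 4) (C := 1) (by norm_num) (by positivity) one_pos,
    rpow_beats (p := 14 / 25) (q := 57 / 100) (c := η * th0 / 2) (C := 2) (by norm_num) (by positivity) (by norm_num),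
    rpow_beats (p := 14 / 25) (q := 3 / 4) (c := η * th0 / 2) (C := 5) (by norm_num) (by positivity) (by norm_num),
    rpow_beats (p := 14 / 25) (q := 13 / 20) (c := η' / 2) (C := 5) (by norm_num) (by positivity) (by norm_num),
    eventually_ge_atTop 1, eventually_ge_atTop ⌈16 / (η * th0)⌉₊, eventually_ge_atTop ⌈2 / η'⌉₊]
    with t hT hB hN hGd g1 g2 g3 g4 ht ht2 ht3 F κ m hc X hX hX1 hX2 D hD
  have ht1 : (1 : ℝ) ≤ t := by exact_mod_cast ht
  have ht0 : (0 : ℝ) < t := by linarith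
  have hF : ∀ i, Iv (F i) := fun i => (cent_iv hc i).1
  have hκ : |κ| ≤ 1 := (cent_iv hc ⟨0, hK⟩).2
  obtain ⟨h, hh⟩ : ∃ h, h = η * th0 * (t : ℝ) := ⟨_, rfl⟩
  have hh16 : 16 ≤ h := by
    have a1 : 16 / (η * th0) ≤ t := (Nat.le_ceil _).trans (by exact_mod_cast ht2)
    rw [div_le_iff₀ hηt] at a1
    rw [hh]
    linarith
  have hk2 : 2 ≤ η' * t := by
    have a1 : 2 / η' ≤ t := (Nat.le_ceil _).trans (by exact_mod_cast ht3)
    rw [div_le_iff₀ hη'] at a1
    linarith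
  -- the parameters
  obtain ⟨δ, hδ⟩ : ∃ δ, δ = de t := ⟨_, rfl⟩
  obtain ⟨a, ha⟩ : ∃ a : ℕ, a = ⌊(t : ℝ) ^ (14 / 25 : ℝ)⌋₊ := ⟨_, rfl⟩
  obtain ⟨L, hL⟩ : ∃ L : ℕ, L = ⌊3 / 4 * (η * th0) * (t : ℝ)⌋₊ := ⟨_, rfl⟩
  obtain ⟨k, hk⟩ : ∃ k : ℕ, k = ⌊η' * (t : ℝ)⌋₊ := ⟨_, rfl⟩
  rw [← hL] at hB
  rw [← hk] at hN ⊢
  have hδle : (δ : ℝ) ≤ (t : ℝ) ^ (103 / 200 : ℝ) := by rw [hδ]; exact de_le t
  have hale : (a : ℝ) ≤ (t : ℝ) ^ (14 / 25 : ℝ) := by rw [ha]; exact Nat.floor_le (by positivity)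
  have p1 : (t : ℝ) ^ (103 / 200 : ℝ) ≤ (t : ℝ) ^ (13 / 25 : ℝ) := Real.rpow_le_rpow_of_exponent_le ht1 (by norm_num)
  have p2 : (t : ℝ) ^ (13 / 25 : ℝ) ≤ (t : ℝ) ^ (14 / 25 : ℝ) := Real.rpow_le_rpow_of_exponent_le ht1 (by norm_num)
  have p3 : (t : ℝ) ^ (14 / 25 : ℝ) ≤ (t : ℝ) ^ (29 / 50 : ℝ) := Real.rpow_le_rpow_of_exponent_le ht1 (by norm_num)
  have p4 : 1 ≤ (t : ℝ) ^ (14 / 25 : ℝ) := Real.one_le_rpow ht1 (by norm_num)
  have hL1 : (L : ℝ) ≤ 3 / 4 * h := by
    rw [hL, hh]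
    have := Nat.floor_le (a := 3 / 4 * (η * th0) * (t : ℝ)) (by positivity)
    linarith
  have hL2 : 3 / 4 * h < L + 1 := by
    rw [hL, hh]
    have := Nat.lt_floor_add_one (3 / 4 * (η * th0) * (t : ℝ))
    linarith
  have hLh : h / 2 ≤ L := by linarith
  have hL0 : (0 : ℝ) ≤ h / 2 := by linarith
  have hk1 : (k : ℝ) ≤ η' * t := by rw [hk]; exact Nat.floor_le (by positivity)
  have hk3 : η' * t / 2 ≤ k := by
    have : η' * t < k + 1 := by rw [hk]; exact Nat.lt_floor_add_one _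
    linarith
  have hk0 : (0 : ℝ) < k := by linarith
  have hδh : (δ : ℝ) ≤ h / 4 := by
    rw [Real.rpow_one, one_mul] at g1
    rw [hh]
    linarith
  have hLp : (a : ℝ) + δ ≤ (L : ℝ) ^ (57 / 100 : ℝ) := by
    have b1 : (η * th0 / 2 * t) ^ (57 / 100 : ℝ) ≤ (L : ℝ) ^ (57 / 100 : ℝ) :=
      Real.rpow_le_rpow (by positivity) (by rw [hh] at hLh; linarith) (by norm_num)
    linarith
  have hLq : a + 2 * δ + 0 + δ + 1 ≤ ⌊(L : ℝ) ^ (3 / 4 : ℝ)⌋₊ := by
    apply Nat.le_floor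
    have b1 : (η * th0 / 2 * t) ^ (3 / 4 : ℝ) ≤ (L : ℝ) ^ (3 / 4 : ℝ) :=
      Real.rpow_le_rpow (by positivity) (by rw [hh] at hLh; linarith) (by norm_num)
    push_cast
    linarith
  have hkq : a + 2 * δ + 0 + δ + 1 ≤ ⌊(k : ℝ) ^ (13 / 20 : ℝ)⌋₊ := by
    apply Nat.le_floor
    have b1 : (η' / 2 * t) ^ (13 / 20 : ℝ) ≤ (k : ℝ) ^ (13 / 20 : ℝ) :=
      Real.rpow_le_rpow (by positivity) (by linarith) (by norm_num)
    push_cast
    linarith
  have hDa : ∀ i, D i ≤ a := fun i => by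
    rw [ha]
    exact Nat.le_floor (hD i).2
  have hDδ : ∀ i, δ ≤ D i := fun i => by
    have : (δ : ℝ) ≤ D i := by linarith [(hD i).1]
    exact_mod_cast this
  -- merging
  have hnear : ∀ D' r : ℤ, |(D' : ℝ)| < G * √L → |r| ≤ 4 ^ (a + 2 * δ + 0 + δ + 1) → ns k (D', r) ≤ 1 / 2 := by
    intro D' r hD' hr
    have b1 := hN D' r (hr.trans (pow_le_pow_right₀ (by norm_num) hkq))
    have hsk : 0 < √(k : ℝ) := Real.sqrt_pos.2 hk0
    have b2 : 2 * |(D' : ℝ)| / √k ≤ 1 / 4 := by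
      rw [div_le_iff₀ hsk]
      have b3 : 8 * (G * √L) ≤ √k := by
        apply Real.le_sqrt_of_sq_le
        rw [mul_pow, mul_pow, Real.sq_sqrt (by positivity)]
        have b4 : (L : ℝ) ≤ η * t := by
          have : th0 * (η * t) ≤ 1 * (η * t) := mul_le_mul_of_nonneg_right (by linarith) (by positivity)
          rw [hh] at hL1
          nlinarith
        have b5 : G ^ 2 * (L : ℝ) ≤ G ^ 2 * (η * t) := mul_le_mul_of_nonneg_left b4 (by positivity)
        have b6 : η * (128 * G ^ 2) * t ≤ η' * t := mul_le_mul_of_nonneg_right hη2.le ht0.le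
        nlinarith
      linarith
    linarith
  -- pointwise
  obtain ⟨FF, hFF⟩ : ∃ FF : ℤ → ℝ, FF = fun y => cl F κ (3 ^ od t y * X / 2 ^ t)
    (rn stK t (fun i => ((D i : ℤ), 0)) y) := ⟨_, rfl⟩
  obtain ⟨MM, hMM⟩ : ∃ MM : ℤ → ℝ, MM = fun y => mP m (rn stK t (fun i => ((D i : ℤ), 0)) y) := ⟨_, rfl⟩
  obtain ⟨W, hW⟩ : ∃ W : ℤ → ℝ, W = fun y => ∑ i, ∑ j, Wp t k ((D j : ℤ) - D i, 0) (3 ^ D i * y) := ⟨_, rfl⟩
  have hW0 : ∀ y, 0 ≤ W y := fun y => by
    rw [hW]
    exact sum_nonneg fun i _ => sum_nonneg fun j _ => Wp_nonneg _ _ _ _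
  have hpt : ∀ y, |FF y - MM y| ≤ ε / 4 + 3 * id1 (¬ Gg t D y) + 6 * W y := by
    intro y
    have hX'0 : 0 < 3 ^ od t y * X / 2 ^ t := by positivity
    have hF2 : |FF y| ≤ 2 := by
      rw [hFF]
      exact ccK_bd hF κ hX'0.le _ _
    have hM1 : |MM y| ≤ 1 := by
      rw [hMM]
      exact mP_bd hc _
    have hdif : |FF y - MM y| ≤ 3 := by
      have := abs_sub (FF y) (MM y)
      linarith
    by_cases hGy : Gg t D y
    · rw [id1_neg (P := ¬ Gg t D y) (fun h => h hGy), mul_zero, add_zero]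
      obtain ⟨hg0, hgi⟩ := hGy
      rw [← hδ] at hg0 hgi
      have hs : ∀ i, rn stK t (fun i => ((D i : ℤ), 0)) y i = rn stP t ((D i : ℤ), 0) y := fun i =>
        Pool.Agent.J4H39.rn_stK_apply t _ y i
      by_cases hfar : ∀ i j, rn stP t ((D i : ℤ), 0) y = rn stP t ((D j : ℤ), 0) y ∨
          G * √L ≤ |((rn stP t ((D i : ℤ), 0) y).1 : ℝ) - (rn stP t ((D j : ℤ), 0) y).1|
      · have hod := (hg0 t le_rfl).2
        have hlog := Pool.Agent.J4H94.PC.logX hX (od t y) t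
        have hdv : |(1 - th0) * (2 * (od t y : ℝ) - t)| ≤ δ := by
          rw [abs_mul, abs_of_pos (by linarith : 0 < 1 - th0)]
          calc (1 - th0) * |2 * (od t y : ℝ) - t| ≤ 1 * |2 * (od t y : ℝ) - t| :=
                mul_le_mul_of_nonneg_right (by linarith) (abs_nonneg _)
            _ ≤ δ := by rw [one_mul]; exact hod
        rw [abs_le] at hdv
        have hlo : h ≤ logb 2 X - th0 * t := by rw [hh]; linarith
        have hup : logb 2 X - th0 * t ≤ 2 * h := by rw [hh]; linarith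
        have key := hB F κ m hc (3 ^ od t y * X / 2 ^ t) hX'0 (by rw [hlog]; linarith [hdv.1])
          (by rw [hlog]; linarith [hdv.2]) (rn stK t (fun i => ((D i : ℤ), 0)) y) (fun i => by
            rw [hs i]
            have hGS := Pool.Agent.J4H39.exit_one (a := a) (b := 0) (l := δ) (δ := δ) (n := t)
              (s := ((D i : ℤ), 0)) ⟨by
                simp only
                rw [abs_of_nonneg (Int.natCast_nonneg _)]
                exact_mod_cast hDa i, by simp⟩ (rel_base (D i) y) hg0 (hgi i) le_rfl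
            have hrel := (Pool.Agent.J4H39.rel_rn (rel_base (D i) y) t).2
            simp only at hrel
            have o1 := Pool.Agent.J4H39.od_up hg0 (le_refl t)
            have o2 := Pool.Agent.J4H39.od_lo (hgi i) (le_refl t)
            have o3 := hDδ i
            have c1 : 0 ≤ (rn stP t ((D i : ℤ), 0) y).1 := by rw [hrel]; omega
            refine ⟨c1, ?_, ?_⟩
            · have c2 := hGS.1
              rw [abs_of_nonneg c1] at c2
              have c3 : ((rn stP t ((D i : ℤ), 0) y).1 : ℝ) ≤ a + δ := by exact_mod_cast c2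
              linarith
            · exact hGS.2.trans (pow_le_pow_right₀ (by norm_num) hLq)) (fun i j => by
            rw [hs i, hs j]
            exact hfar i j)
        have := hW0 y
        rw [hFF, hMM]
        simp only
        linarith
      · push Not at hfar
        obtain ⟨i, j, hne, hlt⟩ := hfar
        obtain ⟨q1, q2⟩ := pair_lab (D i) (D j) t y
        have q3 := q2 hne
        have hGS := Pool.Agent.J4H39.exit_one (a := a) (b := 0) (l := δ) (δ := δ) (n := t)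
          (s := ((D j : ℤ) - D i, 0)) ⟨by
            simp only
            have d1 := hDa i
            have d2 := hDa j
            rw [abs_le]
            constructor <;> omega, by simp⟩ (rel_pair (D i) (D j) y) (hgi i) (hgi j) le_rfl
        have hns : ns k (rn stP t ((D j : ℤ) - D i, 0) (3 ^ D i * y)) ≤ 1 / 2 := by
          apply hnear
          · rw [q1]
            push_cast
            rw [abs_sub_comm]
            exact hlt
          · exact hGS.2
        have hWij : 1 / 2 ≤ Wp t k ((D j : ℤ) - D i, 0) (3 ^ D i * y) := by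
          unfold Wp
          rw [id1_pos q3]
          linarith
        have hWy : Wp t k ((D j : ℤ) - D i, 0) (3 ^ D i * y) ≤ W y := by
          rw [hW]
          refine (single_le_sum (f := fun j => Wp t k ((D j : ℤ) - D i, 0) (3 ^ D i * y))
            (fun j _ => Wp_nonneg _ _ _ _) (mem_univ j)).trans ?_
          exact single_le_sum (f := fun i => ∑ j, Wp t k ((D j : ℤ) - D i, 0) (3 ^ D i * y))
            (fun i _ => sum_nonneg fun j _ => Wp_nonneg _ _ _ _) (mem_univ i)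
        linarith
    · rw [id1_pos hGy]
      have := hW0 y
      linarith
  -- the averages
  have hexW : ex t W = ∑ i, ∑ j, (ns t ((D i : ℤ) - D j, 0) - ns (t + k) ((D i : ℤ) - D j, 0)) := by
    rw [hW, ex_sum, sum_comm]
    rw [sum_comm]
    have e1 : ∀ i : Fin K, ex t (fun y => ∑ j, Wp t k ((D j : ℤ) - D i, 0) (3 ^ D i * y)) =
        ∑ j, (ns t ((D j : ℤ) - D i, 0) - ns (t + k) ((D j : ℤ) - D i, 0)) := by
      intro i
      rw [ex_sum]
      exact sum_congr rfl fun j _ => ex_Wp _ _ _ _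
    rw [sum_congr rfl fun i _ => e1 i, sum_comm]
  have hexW0 : 0 ≤ ex t W := by
    have : ex t (fun _ => (0 : ℝ)) ≤ ex t W := ex_mono hW0
    rwa [ex_const] at this
  have hpG : 3 * pb t (fun y => ¬ Gg t D y) ≤ ε / 4 := by
    have c1 := pb_ng t D
    have hK1 : (0 : ℝ) < K + 1 := by positivity
    have c2 : (K + 1 : ℝ) * pb t (fun y => ¬ Gd t (4 ^ de t : ℕ) (de t : ℕ) y) ≤ (K + 1) * (ε / (12 * (K + 1))) :=
      mul_le_mul_of_nonneg_left hGd hK1.le
    have c3 : (K + 1 : ℝ) * (ε / (12 * (K + 1))) = ε / 12 := by field_simp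
    linarith
  have hdiff : |ex t FF - ex t MM| ≤ ε / 4 + 3 * pb t (fun y => ¬ Gg t D y) + 6 * ex t W := by
    have e1 : ex t FF - ex t MM = ex t (fun y => FF y + (-1) * MM y) := by
      rw [ex_add, ex_mul]; ring
    have e2 : ex t (fun y => ε / 4 + 3 * id1 (¬ Gg t D y) + 6 * W y) =
        ε / 4 + 3 * pb t (fun y => ¬ Gg t D y) + 6 * ex t W := by
      rw [ex_add, ex_add, ex_const, ex_mul, ex_mul, ← Pool.Agent.J4H39.pb_id1]
    have e3 : ex t (fun y => (-1) * (ε / 4 + 3 * id1 (¬ Gg t D y) + 6 * W y)) =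
        -(ε / 4 + 3 * pb t (fun y => ¬ Gg t D y) + 6 * ex t W) := by
      rw [ex_mul, e2]; ring
    rw [e1, abs_le]
    constructor
    · rw [← e3]
      apply ex_mono
      intro y
      have := (abs_le.1 (hpt y)).1
      linarith
    · rw [← e2]
      apply ex_mono
      intro y
      have := (abs_le.1 (hpt y)).2
      linarith
  have hT' : |ccK F κ X D (fun _ => 0) - ex t FF| ≤ ε / 4 := by
    rw [hFF]
    exact hT F hF κ hκ X hX hX1 D (fun i => ⟨(hD i).1, (hD i).2.trans p3⟩)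
  have tri := abs_sub_le (ccK F κ X D (fun _ => 0)) (ex t FF) (ex t MM)
  rw [hexW] at hdiff hexW0
  have hMM' : ex t (fun y => mP m (rn stK t (fun i => ((D i : ℤ), 0)) y)) = ex t MM := by rw [hMM]
  rw [hMM']
  linarith

end Pool.Agent.J4H30.KP
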