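import Mathlib
import Pool.Agent.J4H26.KP.Lm
import Pool.Agent.J4H26.KT.E

set_option autoImplicit false

/-! Project KP, job N5: `S_CROSS` from `S_CDFE` and `S_NEAR`. -/

namespace Pool.Agent.J4H30.KP

open Finset Filter Real
open Pool.Agent.J4H26.KP
open Pool.Agent.J4H26.AF (moves)
open Pool.Agent.J4H26.KT (cw ind cw_mono cw_sum cw_succ cw_add cw_smul cw_const isE_cw yv win compare pair_close
  tail_single)

theorem mZ_congr {K : ℕ} (m : Finset (Fin K) → ℝ) {u v : Fin K → ℤ} (h : ∀ i j, u i = u j ↔ v i = v j) :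
    mZ m u = mZ m v := by
  unfold mZ
  have : (fun i j => u i = u j) = (fun i j => v i = v j) := by
    funext i j
    exact propext (h i j)
  rw [this]

theorem mZ_bd {K : ℕ} {m : Finset (Fin K) → ℝ} (hm : ∀ B, |m B| ≤ 1) (u : Fin K → ℤ) : |mZ m u| ≤ 1 := by
  unfold mZ mR
  rw [Finset.abs_prod]
  exact Finset.prod_le_one (fun _ _ => abs_nonneg _) (fun B _ => hm B)

theorem cw_shift' {K : ℕ} (f : (Fin K → ℤ) → ℝ) (c : ℤ) (s : ℕ) : ∀ z : Fin K → ℤ,
    cw f s (fun i => c + z i) = cw (fun u => f (fun i => c + u i)) s z := by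
  induction s with
  | zero => intro z; rfl
  | succ s ih =>
    intro z
    rw [cw_succ, cw_succ]
    have e : moves (fun i => c + z i) = moves z := by
      unfold Pool.Agent.J4H26.AF.moves
      apply filter_congr
      intro p _
      simp only [add_right_inj]
    rw [e]
    congr 1
    apply sum_congr rfl
    intro p _
    rw [← ih]
    congr 1
    funext i
    ring

theorem cw_mZ_shift {K : ℕ} (m : Finset (Fin K) → ℝ) (c : ℤ) (s : ℕ) (z : Fin K → ℤ) :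
    cw (mZ m) s z = cw (mZ m) s (fun i => z i - c) := by
  have h := cw_shift' (mZ m) (-c) s z
  have e1 : (fun i => -c + z i) = (fun i => z i - c) := by
    funext i
    ring
  have e2 : (fun u : Fin K → ℤ => mZ m (fun i => -c + u i)) = mZ m := by
    funext u
    exact mZ_congr m (fun i j => by simp)
  rw [e1, e2] at h
  exact h.symm

theorem mZ_cell {K : ℕ} {m : Finset (Fin K) → ℝ} (hm : ∀ B, |m B| ≤ 1) {h : ℕ} (hh : 1 ≤ h) (u : Fin K → ℤ) :
    |mZ m u - mZ m (fun i => u i / h)| ≤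
      2 * ∑ i, ∑ j, (if u j ≠ u i ∧ |u i - u j| ≤ (h : ℤ) then (1 : ℝ) else 0) := by
  have hnn : ∀ i j : Fin K, (0 : ℝ) ≤ (if u j ≠ u i ∧ |u i - u j| ≤ (h : ℤ) then (1 : ℝ) else 0) := by
    intro i j
    split_ifs <;> norm_num
  have hh0 : (0 : ℤ) < h := by exact_mod_cast hh
  by_cases hc : ∃ i j, u j ≠ u i ∧ |u i - u j| ≤ (h : ℤ)
  · obtain ⟨i, j, hij⟩ := hc
    have h1 : (1 : ℝ) ≤ ∑ i, ∑ j, (if u j ≠ u i ∧ |u i - u j| ≤ (h : ℤ) then (1 : ℝ) else 0) := by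
      calc (1 : ℝ) = (if u j ≠ u i ∧ |u i - u j| ≤ (h : ℤ) then (1 : ℝ) else 0) := (if_pos hij).symm
        _ ≤ ∑ j, (if u j ≠ u i ∧ |u i - u j| ≤ (h : ℤ) then (1 : ℝ) else 0) :=
            single_le_sum (f := fun j => (if u j ≠ u i ∧ |u i - u j| ≤ (h : ℤ) then (1 : ℝ) else 0))
              (fun j _ => hnn i j) (mem_univ j)
        _ ≤ _ := single_le_sum
            (f := fun i => ∑ j, (if u j ≠ u i ∧ |u i - u j| ≤ (h : ℤ) then (1 : ℝ) else 0))
              (fun i _ => sum_nonneg fun j _ => hnn i j) (mem_univ i)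
    have h2 := abs_sub (mZ m u) (mZ m (fun i => u i / h))
    have h3 := mZ_bd hm u
    have h4 := mZ_bd hm (fun i => u i / h)
    linarith
  · push Not at hc
    have e : mZ m u = mZ m (fun i => u i / h) := mZ_congr m (fun i j => by
      constructor
      · intro hij
        rw [hij]
      · intro hij
        by_contra hne
        have h1 := hc i j (fun h => hne h.symm)
        have a1 := Int.mul_ediv_add_emod (u i) h
        have a2 := Int.mul_ediv_add_emod (u j) h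
        have a3 := Int.emod_nonneg (u i) hh0.ne'
        have a4 := Int.emod_nonneg (u j) hh0.ne'
        have a5 := Int.emod_lt_of_pos (u i) hh0
        have a6 := Int.emod_lt_of_pos (u j) hh0
        rw [← hij] at a2
        have a7 : |u i - u j| < h := by
          rw [abs_lt]
          constructor <;> linarith
        linarith)
    rw [e, sub_self, abs_zero]
    exact mul_nonneg (by norm_num) (sum_nonneg fun i _ => sum_nonneg fun j _ => hnn i j)

open Classical in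
theorem win_out {K : ℕ} {t h : ℕ} (ht : 1 ≤ t) (hh : 1 ≤ h) {η M B : ℝ} (hη : 0 < η) (hM : 0 < M)
    (hB : 0 < B) (hhη : η * √(t : ℝ) ≤ h) {J : ℕ} (hJ : (B + M + 1) / η ≤ J) (z : Fin K → ℤ)
    (hz : ∀ i, |(z i : ℝ)| ≤ B * √(t : ℝ)) :
    cw (fun u => if (∀ i, -(J : ℤ) ≤ u i / h ∧ u i / h < -(J : ℤ) + (2 * J : ℕ)) then 0 else 1) t
      (fun i => z i - (t / 2 : ℕ)) ≤ K * (1 / (4 * M ^ 2)) := by
  have hst1 : 1 ≤ √(t : ℝ) := by
    rw [Real.one_le_sqrt]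
    exact_mod_cast ht
  have hh0 : (0 : ℤ) < h := by exact_mod_cast hh
  have hh0r : (0 : ℝ) < h := by exact_mod_cast hh
  obtain ⟨a, ha⟩ : ∃ a : Fin K → ℤ, a = fun i => z i - (t / 2 : ℕ) := ⟨_, rfl⟩
  rw [← ha]
  have h1 : cw (fun u => if (∀ i, -(J : ℤ) ≤ u i / h ∧ u i / h < -(J : ℤ) + (2 * J : ℕ)) then 0 else 1) t a ≤
      cw (fun u => ∑ i, if 2 * M * √(t : ℝ) ≤ |2 * (u i : ℝ) - (2 * a i + t)| then (1 : ℝ) else 0) t a := by
    apply cw_mono
    intro u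
    have hnn : ∀ i : Fin K, (0 : ℝ) ≤ if 2 * M * √(t : ℝ) ≤ |2 * (u i : ℝ) - (2 * a i + t)| then (1 : ℝ) else 0 := by
      intro i; split_ifs <;> norm_num
    split_ifs with hw
    · exact sum_nonneg fun i _ => hnn i
    · rw [not_forall] at hw
      obtain ⟨i, hi⟩ := hw
      have h2 : 2 * M * √(t : ℝ) ≤ |2 * (u i : ℝ) - (2 * a i + t)| := by
        by_contra hcon
        push Not at hcon
        apply hi
        have b0 : ((t / 2 : ℕ) : ℝ) ≤ t / 2 := Nat.cast_div_le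
        have b0' : (t : ℝ) / 2 - 1 ≤ ((t / 2 : ℕ) : ℝ) := by
          have : t ≤ 2 * (t / 2) + 1 := by omega
          have : (t : ℝ) ≤ 2 * ((t / 2 : ℕ) : ℝ) + 1 := by exact_mod_cast this
          linarith
        have hai : ((a i : ℤ) : ℝ) = z i - ((t / 2 : ℕ) : ℝ) := by
          rw [ha]
          push_cast
          rfl
        rw [hai, abs_lt] at hcon
        have hzi := abs_le.1 (hz i)
        have b1 : |(u i : ℝ)| < J * h := by
          have b2 : (B + M + 1) * √(t : ℝ) ≤ J * h := by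
            rw [div_le_iff₀ hη] at hJ
            calc (B + M + 1) * √(t : ℝ) ≤ (J * η) * √(t : ℝ) := mul_le_mul_of_nonneg_right hJ (by linarith)
              _ = J * (η * √(t : ℝ)) := by ring
              _ ≤ J * h := mul_le_mul_of_nonneg_left hhη (by positivity)
          rw [abs_lt]
          constructor <;> nlinarith [hcon.1, hcon.2, hzi.1, hzi.2]
        rw [abs_lt] at b1
        have c1 : u i < (J : ℤ) * h := by exact_mod_cast b1.2
        have c2 : -((J : ℤ) * h) < u i := by exact_mod_cast b1.1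
        refine ⟨?_, ?_⟩
        · apply Int.le_ediv_of_mul_le hh0
          linarith
        · have : u i / h < J := Int.ediv_lt_of_lt_mul hh0 c1
          push_cast
          linarith
      calc (1 : ℝ) = if 2 * M * √(t : ℝ) ≤ |2 * (u i : ℝ) - (2 * a i + t)| then 1 else 0 := by rw [if_pos h2]
        _ ≤ _ := single_le_sum (f := fun i => if 2 * M * √(t : ℝ) ≤ |2 * (u i : ℝ) - (2 * a i + t)| then (1 : ℝ) else 0)
            (fun i _ => hnn i) (mem_univ i)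
  refine h1.trans ?_
  rw [cw_sum]
  refine (sum_le_sum fun i _ => tail_single i ht hM a).trans (le_of_eq ?_)
  rw [sum_const, card_univ, Fintype.card_fin, nsmul_eq_mul]

theorem err_bd {K : ℕ} {t h : ℕ} (ht : 1 ≤ t) (z : Fin K → ℤ) :
    cw (fun u => 2 * ∑ i, ∑ j, (if u j ≠ u i ∧ |u i - u j| ≤ (h : ℤ) then (1 : ℝ) else 0)) t z ≤
      2 * ((K : ℝ) ^ 2 * ((2 * h + 1) / √(t : ℝ))) := by
  rw [cw_smul]
  apply mul_le_mul_of_nonneg_left _ (by norm_num)
  rw [cw_sum]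
  have h1 : ∀ i ∈ (univ : Finset (Fin K)), cw (fun u => ∑ j, (if u j ≠ u i ∧ |u i - u j| ≤ (h : ℤ) then (1 : ℝ) else 0))
      t z ≤ K * ((2 * h + 1) / √(t : ℝ)) := by
    intro i _
    rw [cw_sum]
    refine (sum_le_sum fun j _ => pair_close ht j i h z).trans (le_of_eq ?_)
    rw [sum_const, card_univ, Fintype.card_fin, nsmul_eq_mul]
  refine (sum_le_sum h1).trans (le_of_eq ?_)
  rw [sum_const, card_univ, Fintype.card_fin, nsmul_eq_mul]
  ring

/-- starts in the same order -/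
theorem cross_sorted (hC : S_CDFE) (K : ℕ) {B ε : ℝ} (hB : 0 < B) (hε : 0 < ε) : ∃ β : ℝ, 0 < β ∧ ∃ t₀ : ℕ,
    ∀ t t' : ℕ, t₀ ≤ t → t₀ ≤ t' → ∀ m : Finset (Fin K) → ℝ, (∀ B, |m B| ≤ 1) → ∀ z z' : Fin K → ℤ,
    (∀ i, |(z i : ℝ)| ≤ B * √(t : ℝ)) → (∀ i, |(z' i : ℝ)| ≤ B * √(t' : ℝ)) →
    (∃ σ : Equiv.Perm (Fin K), Monotone (fun i => z (σ i)) ∧ Monotone (fun i => z' (σ i))) →
    (∀ i, |(z i : ℝ) / √(t : ℝ) - z' i / √(t' : ℝ)| ≤ β) → |cw (mZ m) t z - cw (mZ m) t' z'| ≤ ε := by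
  classical
  obtain ⟨L, hL⟩ : ∃ L : ℝ, L = (K : ℝ) ^ 2 + 1 := ⟨_, rfl⟩
  have hK0 : (0 : ℝ) ≤ K := by positivity
  have hL1 : 1 ≤ L := by rw [hL]; nlinarith
  have hKL : (K : ℝ) ≤ L := by rw [hL]; nlinarith
  have hKL2 : (K : ℝ) ^ 2 ≤ L := by rw [hL]; linarith
  obtain ⟨M, hM⟩ : ∃ M : ℝ, M = √(2 * L / ε) + 1 := ⟨_, rfl⟩
  have hM0 : 0 < M := by rw [hM]; positivity
  have hM2 : 2 * L / ε ≤ M ^ 2 := by
    have h1 : √(2 * L / ε) ^ 2 = 2 * L / ε := Real.sq_sqrt (by positivity)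
    have h2 := Real.sqrt_nonneg (2 * L / ε)
    rw [hM]; nlinarith
  obtain ⟨η, hη⟩ : ∃ η : ℝ, η = ε / (32 * L) := ⟨_, rfl⟩
  have hη0 : 0 < η := by rw [hη]; positivity
  have hηε : L * η = ε / 32 := by rw [hη]; field_simp
  obtain ⟨J, hJ⟩ : ∃ J : ℕ, J = ⌈(B + M + 1) / η⌉₊ := ⟨_, rfl⟩
  have hJ1 : (B + M + 1) / η ≤ J := by rw [hJ]; exact Nat.le_ceil _
  have hJ0 : (0 : ℝ) < J := lt_of_lt_of_le (by positivity) hJ1
  obtain ⟨δ, hδ⟩ : ∃ δ : ℝ, δ = ε / (8 * (((2 * J : ℕ) : ℝ) ^ K * 2 ^ K)) := ⟨_, rfl⟩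
  have hJK : (0 : ℝ) < ((2 * J : ℕ) : ℝ) ^ K * 2 ^ K := by
    push_cast
    positivity
  have hδ0 : 0 < δ := by rw [hδ]; positivity
  obtain ⟨β, hβ, t₁, hC⟩ := hC K ((J : ℝ) + 1) δ (by positivity) hδ0
  obtain ⟨Y, hY⟩ : ∃ Y : ℝ, Y = 1 / β + 1 / η + 96 * L / ε := ⟨_, rfl⟩
  have hY0 : 0 < Y := by rw [hY]; positivity
  refine ⟨β, hβ, max (max t₁ 1) ⌈Y ^ 2⌉₊, fun t t' ht ht' m hm z z' hz hz' hσ hzz => ?_⟩
  -- facts on one scale
  have scale : ∀ t : ℕ, max (max t₁ 1) ⌈Y ^ 2⌉₊ ≤ t → t₁ ≤ t ∧ 1 ≤ t ∧ 1 ≤ √(t : ℝ) ∧ 1 / √(t : ℝ) ≤ β ∧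
      1 ≤ η * √(t : ℝ) ∧ L * (3 / √(t : ℝ)) ≤ ε / 32 := by
    intro t ht
    have h1 : t₁ ≤ t := le_trans (le_trans (le_max_left _ _) (le_max_left _ _)) ht
    have h2 : 1 ≤ t := le_trans (le_trans (le_max_right _ _) (le_max_left _ _)) ht
    have h3 : Y ^ 2 ≤ t := (Nat.le_ceil _).trans (by exact_mod_cast le_trans (le_max_right _ _) ht)
    have h4 : Y ≤ √(t : ℝ) := Real.le_sqrt_of_sq_le h3
    have h5 : 1 ≤ √(t : ℝ) := by
      rw [Real.one_le_sqrt]
      exact_mod_cast h2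
    have h6 : 0 < √(t : ℝ) := by linarith
    have g1 : 0 < 1 / β := by positivity
    have g2 : 0 < 1 / η := by positivity
    have g3 : 0 < 96 * L / ε := by positivity
    refine ⟨h1, h2, h5, ?_, ?_, ?_⟩
    · have : 1 / β ≤ √(t : ℝ) := by rw [hY] at h4; linarith
      rw [div_le_iff₀ hβ] at this
      rw [div_le_iff₀ h6]
      linarith
    · have : 1 / η ≤ √(t : ℝ) := by rw [hY] at h4; linarith
      rw [div_le_iff₀ hη0] at this
      linarith
    · have : 96 * L / ε ≤ √(t : ℝ) := by rw [hY] at h4; linarith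
      rw [div_le_iff₀ hε] at this
      rw [← mul_div_assoc, div_le_iff₀ h6]
      linarith
  obtain ⟨s1, s2, s3, s4, s5, s6⟩ := scale t ht
  obtain ⟨r1, r2, r3, r4, r5, r6⟩ := scale t' ht'
  have hcell : ∀ t : ℕ, 1 ≤ √(t : ℝ) → 1 ≤ η * √(t : ℝ) → 1 ≤ ⌈η * √(t : ℝ)⌉₊ ∧
      η ≤ ((⌈η * √(t : ℝ)⌉₊ : ℕ) : ℝ) / √(t : ℝ) ∧ ((⌈η * √(t : ℝ)⌉₊ : ℕ) : ℝ) / √(t : ℝ) ≤ η + 1 / √(t : ℝ) := by
    intro t h1 h2
    have h6 : 0 < √(t : ℝ) := by linarith
    refine ⟨Nat.one_le_ceil_iff.2 (by linarith), ?_, ?_⟩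
    · rw [le_div_iff₀ h6]
      exact Nat.le_ceil _
    · rw [div_le_iff₀ h6]
      have := Nat.ceil_lt_add_one (show 0 ≤ η * √(t : ℝ) by linarith)
      rw [add_mul, one_div, inv_mul_cancel₀ h6.ne']
      exact this.le
  obtain ⟨h, hh⟩ : ∃ h : ℕ, h = ⌈η * √(t : ℝ)⌉₊ := ⟨_, rfl⟩
  obtain ⟨h', hh'⟩ : ∃ h' : ℕ, h' = ⌈η * √(t' : ℝ)⌉₊ := ⟨_, rfl⟩
  obtain ⟨u1, u2, u3⟩ := hcell t s3 s5
  obtain ⟨v1, v2, v3⟩ := hcell t' r3 r5
  rw [← hh] at u1 u2 u3
  rw [← hh'] at v1 v2 v3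
  have hh0 : (0 : ℤ) < h := by exact_mod_cast u1
  have hh0' : (0 : ℤ) < h' := by exact_mod_cast v1
  have hst : 0 < √(t : ℝ) := by linarith
  have hst' : 0 < √(t' : ℝ) := by linarith
  have hhh : |(h : ℝ) / √(t : ℝ) - h' / √(t' : ℝ)| ≤ β := by
    rw [abs_le]
    constructor <;> linarith
  have hηh : η * √(t : ℝ) ≤ h := by rw [hh]; exact Nat.le_ceil _
  have hηh' : η * √(t' : ℝ) ≤ h' := by rw [hh']; exact Nat.le_ceil _
  -- rescaled cells
  have hq : ∀ (u : Fin K → ℤ) (i : Fin K), u i / h' * h / h = u i / h' := fun u i =>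
    Int.mul_ediv_cancel _ hh0.ne'
  have hind : ∀ (c : Fin K → ℤ) (S : Finset (Fin K)) (u : Fin K → ℤ),
      ind (yv h c S) (fun i => u i / h' * h) = ind (yv h' c S) u := by
    intro c S u
    unfold Pool.Agent.J4H26.KT.ind
    have e1 : (∀ i, u i / (h' : ℤ) * h ≤ yv h c S i) ↔ ∀ i, u i ≤ yv h' c S i := by
      apply forall_congr'
      intro i
      unfold yv
      have a1 : u i / (h' : ℤ) * h ≤ h * (c i + if i ∈ S then 1 else 0) - 1 ↔
          u i / (h' : ℤ) < c i + if i ∈ S then 1 else 0 := by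
        constructor
        · intro hx
          by_contra hcon
          push Not at hcon
          have := mul_le_mul_of_nonneg_left hcon hh0.le
          linarith
        · intro hx
          have hx' : u i / (h' : ℤ) + 1 ≤ c i + if i ∈ S then 1 else 0 := hx
          have := mul_le_mul_of_nonneg_left hx' hh0.le
          linarith
      have a2 : u i ≤ h' * (c i + if i ∈ S then 1 else 0) - 1 ↔
          u i / (h' : ℤ) < c i + if i ∈ S then 1 else 0 := by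
        rw [Int.ediv_lt_iff_lt_mul hh0', mul_comm]
        omega
      rw [a1, a2]
    simp only [e1]
  -- the comparison
  have cmp := compare (isE_cw t (fun i => z i - (t / 2 : ℕ))) (isE_cw t' (fun i => z' i - (t' / 2 : ℕ)))
    (fun u => u) (fun u i => u i / h' * h) u1 (fun _ => -(J : ℤ)) (2 * J) (δ := δ)
    (fun c hc S => by
      have e1 : (fun ω : Fin K → ℤ => ind (yv h c S) (fun i => ω i / h' * h)) = ind (yv h' c S) :=
        funext fun u => hind c S u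
      rw [e1]
      refine hC t t' s1 r1 h h' u1 v1 hhh (fun i => c i + if i ∈ S then 1 else 0) (fun i => ?_) z z' hσ hzz
      rw [Fintype.mem_piFinset] at hc
      have h1 := hc i
      rw [mem_Ico] at h1
      have h2 : |c i + if i ∈ S then 1 else 0| ≤ (J : ℤ) + 1 := by
        push_cast at h1
        rw [abs_le]
        split_ifs <;> constructor <;> omega
      exact_mod_cast h2)
    (F := mZ m) (fun c => mZ_bd hm c) (mZ m)
    (fun u => 2 * ∑ i, ∑ j, (if u j ≠ u i ∧ |u i - u j| ≤ (h : ℤ) then (1 : ℝ) else 0)) (mZ m)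
    (fun u => 2 * ∑ i, ∑ j, (if u j ≠ u i ∧ |u i - u j| ≤ (h' : ℤ) then (1 : ℝ) else 0))
    (fun u => mZ_cell hm u1 u)
    (fun u => by
      have e1 : (fun i => u i / (h' : ℤ) * h / h) = fun i => u i / (h' : ℤ) := funext fun i => hq u i
      rw [e1]
      exact mZ_cell hm v1 u)
  rw [cw_mZ_shift m ((t / 2 : ℕ) : ℤ) t z, cw_mZ_shift m ((t' / 2 : ℕ) : ℤ) t' z']
  have e1 := err_bd (h := h) s2 (fun i => z i - (t / 2 : ℕ))
  have e2 := err_bd (h := h') r2 (fun i => z' i - (t' / 2 : ℕ))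
  have e3 := win_out s2 u1 hη0 hM0 hB hηh hJ1 z hz
  have e4 := win_out r2 v1 hη0 hM0 hB hηh' hJ1 z' hz'
  have e5 : ((2 * J : ℕ) : ℝ) ^ K * (2 ^ K * δ) = ε / 8 := by
    rw [hδ]
    field_simp
  have n1 : (K : ℝ) * (1 / (4 * M ^ 2)) ≤ ε / 8 := by
    rw [mul_one_div, div_le_iff₀ (by positivity)]
    rw [div_le_iff₀ hε] at hM2
    nlinarith
  have n3 : ∀ (x y : ℝ), 0 < y → x / y ≤ η + 1 / y → L * (3 / y) ≤ ε / 32 →
      2 * ((K : ℝ) ^ 2 * ((2 * x + 1) / y)) ≤ 3 * ε / 16 := by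
    intro x y hy h1 h2
    have g1 : (2 * x + 1) / y ≤ 2 * η + 3 / y := by
      have : (2 * x + 1) / y = 2 * (x / y) + 1 / y := by ring
      rw [this]
      have : 3 / y = 2 * (1 / y) + 1 / y := by ring
      rw [this]
      linarith
    have g2 : (K : ℝ) ^ 2 * ((2 * x + 1) / y) ≤ (K : ℝ) ^ 2 * (2 * η + 3 / y) :=
      mul_le_mul_of_nonneg_left g1 (by positivity)
    have g3 : (K : ℝ) ^ 2 * (2 * η + 3 / y) ≤ L * (2 * η + 3 / y) :=
      mul_le_mul_of_nonneg_right hKL2 (by positivity)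
    have g4 : L * (2 * η + 3 / y) = 2 * (L * η) + L * (3 / y) := by ring
    rw [hηε] at g4
    linarith
  have n4 := n3 h (√(t : ℝ)) hst u3 s6
  have n5 := n3 h' (√(t' : ℝ)) hst' v3 r6
  have w1 : cw (fun ω : Fin K → ℤ => if win h (fun _ => -(J : ℤ)) (2 * J) ω then (0 : ℝ) else 1) t
      (fun i => z i - (t / 2 : ℕ)) ≤ K * (1 / (4 * M ^ 2)) := by
    unfold Pool.Agent.J4H26.KT.win
    refine le_trans (le_of_eq ?_) e3
    congr 1
    funext u
    congr 1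
  have w2 : cw (fun ω : Fin K → ℤ => if win h (fun _ => -(J : ℤ)) (2 * J) (fun i => ω i / h' * h) then (0 : ℝ) else 1) t'
      (fun i => z' i - (t' / 2 : ℕ)) ≤ K * (1 / (4 * M ^ 2)) := by
    unfold Pool.Agent.J4H26.KT.win
    refine le_trans (le_of_eq ?_) e4
    congr 1
    funext u
    simp only [hq u]
  refine cmp.trans ?_
  rw [e5]
  linarith

/-- (N5), without `S_CLIP` -/
theorem t_CROSS : S_CDFE → S_NEAR → S_CROSS := by
  intro hC hN K B ε hB hε
  obtain ⟨β₁, hβ₁, t₁, hN⟩ := hN K (ε / 2) (by positivity)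
  obtain ⟨β₂, hβ₂, t₂, hS⟩ := cross_sorted hC K (B := B + 1) (ε := ε / 2) (by positivity) (by positivity)
  obtain ⟨Y, hY⟩ : ∃ Y : ℝ, Y = 2 / β₁ + 1 / β₂ := ⟨_, rfl⟩
  refine ⟨β₁ / 2, by positivity, max (max t₁ t₂) (max 1 ⌈Y ^ 2⌉₊),
    fun t t' ht ht' m hm z z' hz hzz => ?_⟩
  have ht1 : 1 ≤ t := le_trans (le_trans (le_max_left _ _) (le_max_right _ _)) ht
  have ht1' : 1 ≤ t' := le_trans (le_trans (le_max_left _ _) (le_max_right _ _)) ht'
  have hst1 : 1 ≤ √(t : ℝ) := by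
    rw [Real.one_le_sqrt]
    exact_mod_cast ht1
  have hst1' : 1 ≤ √(t' : ℝ) := by
    rw [Real.one_le_sqrt]
    exact_mod_cast ht1'
  have hst : 0 < √(t : ℝ) := by linarith
  have hst' : 0 < √(t' : ℝ) := by linarith
  have hYt : Y ≤ √(t' : ℝ) := Real.le_sqrt_of_sq_le ((Nat.le_ceil _).trans (by
    exact_mod_cast le_trans (le_trans (le_max_right _ _) (le_max_right _ _)) ht'))
  have g1 : 0 < 2 / β₁ := by positivity
  have g2 : 0 < 1 / β₂ := by positivity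
  have hY1 : 2 / β₁ ≤ √(t' : ℝ) := by rw [hY] at hYt; linarith
  have hY2 : 1 / β₂ ≤ √(t' : ℝ) := by rw [hY] at hYt; linarith
  rw [div_le_iff₀ hβ₁] at hY1
  rw [div_le_iff₀ hβ₂] at hY2
  obtain ⟨w, hw⟩ : ∃ w : Fin K → ℤ, w = fun i => ⌊(z i : ℝ) / √(t : ℝ) * √(t' : ℝ)⌋ := ⟨_, rfl⟩
  have w1 : ∀ i, (w i : ℝ) ≤ (z i : ℝ) / √(t : ℝ) * √(t' : ℝ) := fun i => by rw [hw]; exact Int.floor_le _
  have w2 : ∀ i, (z i : ℝ) / √(t : ℝ) * √(t' : ℝ) < w i + 1 := fun i => by rw [hw]; exact Int.lt_floor_add_one _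
  have hwz : ∀ i, |(z i : ℝ) / √(t : ℝ) - w i / √(t' : ℝ)| ≤ 1 / √(t' : ℝ) := by
    intro i
    have e : (z i : ℝ) / √(t : ℝ) - w i / √(t' : ℝ) = ((z i : ℝ) / √(t : ℝ) * √(t' : ℝ) - w i) / √(t' : ℝ) := by
      field_simp
    rw [e, abs_div, abs_of_pos hst']
    apply div_le_div_of_nonneg_right _ hst'.le
    rw [abs_le]
    constructor <;> linarith [w1 i, w2 i]
  have hzs : ∀ i, |(z i : ℝ) / √(t : ℝ)| ≤ B := by
    intro i
    rw [abs_div, abs_of_pos hst, div_le_iff₀ hst]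
    exact hz i
  have hwB : ∀ i, |(w i : ℝ)| ≤ (B + 1) * √(t' : ℝ) := by
    intro i
    have a1 := abs_le.1 (hzs i)
    have a2 := mul_le_mul_of_nonneg_right a1.1 hst'.le
    have a3 := mul_le_mul_of_nonneg_right a1.2 hst'.le
    rw [abs_le]
    constructor <;> nlinarith [w1 i, w2 i]
  have hzB : ∀ i, |(z i : ℝ)| ≤ (B + 1) * √(t : ℝ) := fun i => (hz i).trans (by nlinarith)
  have hord : ∃ σ : Equiv.Perm (Fin K), Monotone (fun i => z (σ i)) ∧ Monotone (fun i => w (σ i)) := by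
    refine ⟨Tuple.sort z, Tuple.monotone_sort z, fun i j hij => ?_⟩
    have h1 : z (Tuple.sort z i) ≤ z (Tuple.sort z j) := Tuple.monotone_sort z hij
    have h2 : (z (Tuple.sort z i) : ℝ) ≤ z (Tuple.sort z j) := by exact_mod_cast h1
    rw [hw]
    simp only
    apply Int.floor_le_floor
    apply mul_le_mul_of_nonneg_right _ hst'.le
    exact div_le_div_of_nonneg_right h2 hst.le
  have k1 := hS t t' (le_trans (le_trans (le_max_right _ _) (le_max_left _ _)) ht)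
    (le_trans (le_trans (le_max_right _ _) (le_max_left _ _)) ht') m hm z w hzB hwB hord (fun i =>
      (hwz i).trans (by
        rw [div_le_iff₀ hst']
        linarith))
  have k2 := hN t' (le_trans (le_trans (le_max_left _ _) (le_max_left _ _)) ht') m hm w z' (fun i => by
    have a1 := abs_le.1 (hwz i)
    have a2 := abs_le.1 (hzz i)
    have a3 : |(w i : ℝ) / √(t' : ℝ) - z' i / √(t' : ℝ)| ≤ 1 / √(t' : ℝ) + β₁ / 2 := by
      rw [abs_le]
      constructor <;> linarith [a1.1, a1.2, a2.1, a2.2]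
    rw [← sub_div, abs_div, abs_of_pos hst', div_le_iff₀ hst', add_mul, one_div,
      inv_mul_cancel₀ hst'.ne'] at a3
    linarith)
  have tri := abs_sub_le (cw (mZ m) t z) (cw (mZ m) t' w) (cw (mZ m) t' z')
  linarith

end Pool.Agent.J4H30.KP
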