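import Pool.Agent.J4H45.KP.Bin
import Pool.Agent.J4H45.KP.Clt
import Pool.Agent.J4H55.KP.Cdfe
import Pool.Agent.J4H39.KP.N4
import Pool.Agent.J4H19.KP.Iwk
import Pool.Agent.J4H53.KP.Lim
import Pool.Agent.J4H30.KP.Cross

set_option autoImplicit false

/-! Project KP: the expected values for the walks converge (all jobs N1 - N8 put together). -/

namespace Pool.Agent.J4H30.KP

open Pool.Agent.J4H26.KP

theorem lim_all : S_LIM :=
  J4H53.KP.t_LIM J4H39.KP.t_NEAR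
    (t_CROSS (J4H55.KP.t_CDFE J4H45.KP.t_BIN) J4H39.KP.t_NEAR)
    (J4H19.KP.t_IWK (J4H45.KP.t_CLT1 J4H45.KP.t_BIN))

end Pool.Agent.J4H30.KP
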