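import Mathlib
import Pool.Agent.J4H26.KP.Sup
import Pool.Agent.J4H19.KP.Iwk

set_option autoImplicit false

/-! Project KP, part 3, job P6: the number of the clusters is large. -/

namespace Pool.Agent.J4H30.KP.Inf

open Finset Filter Real
open Pool.Agent.J4H39 (U)
open Pool.Agent.J4H39.KP (nc cw_ne)
open Pool.Agent.J4H26.KP
open Pool.Agent.J4H26.KT (iw cw sw sw_mono sw_add sw_nonneg sw_smul iw_cons iw_const iw_smul isE_cw isE_iw)
open Pool.Agent.J4H19.KP (sw_const)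

/-- product of functions of the single walks -/
theorem iw_prod {K : ℕ} (g : ℤ → ℝ) (s : ℕ) :
    iw (fun u : Fin K → ℤ => ∏ i, g (u i)) s (fun _ => 0) = (sw g s 0) ^ K := by
  induction K with
  | zero =>
    simp only [univ_eq_empty, prod_empty, pow_zero]
    exact iw_const 1 s _
  | succ K ih =>
    have e : (fun _ : Fin (K + 1) => (0 : ℤ)) = Fin.cons 0 (fun _ : Fin K => (0 : ℤ)) := by
      funext i
      refine Fin.cases ?_ (fun j => ?_) i
      · rw [Fin.cons_zero]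
      · rw [Fin.cons_succ]
    rw [e, iw_cons]
    have e2 : (fun d' : ℤ => iw (fun v : Fin K → ℤ => ∏ i, g ((Fin.cons d' v : Fin (K + 1) → ℤ) i)) s (fun _ => 0)) =
        fun d' => (sw g s 0) ^ K * g d' := by
      funext d'
      have e3 : (fun v : Fin K → ℤ => ∏ i, g ((Fin.cons d' v : Fin (K + 1) → ℤ) i)) = fun v => g d' * ∏ i, g (v i) := by
        funext v
        rw [Fin.prod_univ_succ]
        simp only [Fin.cons_zero, Fin.cons_succ]
      rw [e3, iw_smul, ih]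
      ring
    rw [e2, sw_smul, pow_succ]

theorem nc_pt {K J : ℕ} {δ : ℝ} (h0 : 0 ≤ δ) (h1 : δ ≤ 1) (r : Fin J → Fin K) (u : Fin K → ℤ) :
    δ ^ nc u ≤ δ ^ J + ∑ j : Fin J, ∑ j' : Fin J,
      (if j < j' then 1 - (if u (r j) = u (r j') then (0 : ℝ) else 1) else 0) := by
  have hn : ∀ a b : Fin J, 0 ≤ (if a < b then 1 - (if u (r a) = u (r b) then (0 : ℝ) else 1) else 0) := by
    intro a b
    split_ifs <;> norm_num
  by_cases h : ∃ j j' : Fin J, j < j' ∧ u (r j) = u (r j')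
  · obtain ⟨j, j', hj, he⟩ := h
    have h2 : (1 : ℝ) ≤ ∑ j : Fin J, ∑ j' : Fin J,
        (if j < j' then 1 - (if u (r j) = u (r j') then (0 : ℝ) else 1) else 0) := by
      calc (1 : ℝ) = (if j < j' then 1 - (if u (r j) = u (r j') then (0 : ℝ) else 1) else 0) := by
            rw [if_pos hj, if_pos he]; ring
        _ ≤ ∑ b : Fin J, (if j < b then 1 - (if u (r j) = u (r b) then (0 : ℝ) else 1) else 0) :=
            single_le_sum (f := fun b : Fin J => (if j < b then 1 - (if u (r j) = u (r b) then (0 : ℝ) else 1) else 0))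
              (fun b _ => hn j b) (mem_univ j')
        _ ≤ _ := single_le_sum (f := fun a : Fin J => ∑ b : Fin J,
              (if a < b then 1 - (if u (r a) = u (r b) then (0 : ℝ) else 1) else 0))
              (fun a _ => sum_nonneg fun b _ => hn a b) (mem_univ j)
    have h3 : δ ^ nc u ≤ 1 := pow_le_one₀ h0 h1
    have h4 : 0 ≤ δ ^ J := pow_nonneg h0 J
    linarith
  · push Not at h
    have hinj : Function.Injective fun j => u (r j) := by
      intro a b hab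
      rcases lt_trichotomy a b with h2 | h2 | h2
      · exact absurd hab (h a b h2)
      · exact h2
      · exact absurd hab.symm (h b a h2)
    have hJ : J ≤ nc u := by
      unfold nc
      calc J = #(univ.image fun j : Fin J => u (r j)) := by
            rw [card_image_of_injective _ hinj, card_univ, Fintype.card_fin]
        _ ≤ _ := card_le_card (image_subset_iff.2 fun j _ => mem_image_of_mem u (mem_univ (r j)))
    have h2 : δ ^ nc u ≤ δ ^ J := pow_le_pow_of_le_one h0 h1 hJ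
    have h3 : 0 ≤ ∑ j : Fin J, ∑ j' : Fin J,
        (if j < j' then 1 - (if u (r j) = u (r j') then (0 : ℝ) else 1) else 0) :=
      sum_nonneg fun a _ => sum_nonneg fun b _ => hn a b
    linarith

theorem cw_pt {K J k : ℕ} {δ e : ℝ} (h0 : 0 ≤ δ) (h1 : δ ≤ 1) (he : 0 ≤ e) (r : Fin J → Fin K) (z : Fin K → ℤ)
    (h : ∀ j j' : Fin J, j < j' → 1 - e ≤ U (2 * k) (2 * (z (r j') - z (r j)))) :
    cw (fun u => δ ^ nc u) k z ≤ δ ^ J + (J : ℝ) ^ 2 * e := by
  have hE := isE_cw k z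
  refine (hE.mono _ _ (fun u => nc_pt h0 h1 r u)).trans ?_
  rw [hE.add, hE.const, hE.sum]
  have h2 : ∀ j ∈ (univ : Finset (Fin J)), cw (fun u => ∑ j' : Fin J,
      (if j < j' then 1 - (if u (r j) = u (r j') then (0 : ℝ) else 1) else 0)) k z ≤ J * e := by
    intro j _
    have e0 := hE.sum (univ : Finset (Fin J)) (fun j' u =>
      (if j < j' then 1 - (if u (r j) = u (r j') then (0 : ℝ) else 1) else 0))
    rw [e0]
    have h3 : ∀ j' ∈ (univ : Finset (Fin J)), cw (fun u =>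
        (if j < j' then 1 - (if u (r j) = u (r j') then (0 : ℝ) else 1) else 0)) k z ≤ e := by
      intro j' _
      by_cases hj : j < j'
      · simp only [if_pos hj]
        have e1 : cw (fun u => 1 - (if u (r j) = u (r j') then (0 : ℝ) else 1)) k z =
            1 - U (2 * k) (2 * (z (r j') - z (r j))) := by
          have e2 : (fun u : Fin K → ℤ => 1 - (if u (r j) = u (r j') then (0 : ℝ) else 1)) =
              fun u => (1 : ℝ) + (-1) * (if u (r j) = u (r j') then (0 : ℝ) else 1) := by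
            funext u
            ring
          rw [e2, hE.add, hE.smul, hE.one, cw_ne]
          ring
        rw [e1]
        linarith [h j j' hj]
      · simp only [if_neg hj]
        rw [hE.const]
        exact he
    have h4 := sum_le_sum h3
    rw [sum_const, card_univ, Fintype.card_fin, nsmul_eq_mul] at h4
    exact h4
  have h5 := sum_le_sum h2
  rw [sum_const, card_univ, Fintype.card_fin, nsmul_eq_mul] at h5
  have h6 : (J : ℝ) * (J * e) = (J : ℝ) ^ 2 * e := by ring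
  rw [h6] at h5
  linarith

theorem t_INF : S_UFAR → S_MASS → S_INF := by
  intro hU hM η δ ρ ρ' hη hδ0 hδ1 hρ' hρ
  obtain ⟨J, hJ⟩ := exists_pow_lt_of_lt_one (by positivity : 0 < η / 4) hδ1
  obtain ⟨e, he⟩ : ∃ e : ℝ, e = η / (4 * ((J : ℝ) ^ 2 + 1)) := ⟨_, rfl⟩
  have he0 : 0 < e := by rw [he]; positivity
  obtain ⟨G, hG, hUG⟩ := hU e he0
  have hsρ : 0 < √ρ' := Real.sqrt_pos.2 hρ'
  obtain ⟨D, hD⟩ : ∃ D : ℝ, D = 1 + G / √ρ' := ⟨_, rfl⟩
  have hD1 : 1 ≤ D := by
    rw [hD]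
    have : 0 < G / √ρ' := by positivity
    linarith
  have hM' : ∀ j : Fin J, ∃ c : ℝ, 0 < c ∧ ∀ᶠ s : ℕ in atTop,
      c ≤ sw (fun u : ℤ => ge1 ⌈(s : ℝ) / 2 + ((j : ℕ) * D) * √s⌉ u * le1 ⌊(s : ℝ) / 2 + ((j : ℕ) * D + 1) * √s⌋ u) s 0 :=
    fun j => hM ((j : ℕ) * D) 1 (by positivity) one_pos
  choose c hc hcs using hM'
  obtain ⟨c₀, hc₀, hc₀1, hc₀c⟩ : ∃ c₀ : ℝ, 0 < c₀ ∧ c₀ ≤ 1 / 2 ∧ ∀ j, c₀ ≤ c j := by
    classical
    obtain ⟨S, hS⟩ : ∃ S : Finset ℝ, S = insert (1 / 2) (univ.image c) := ⟨_, rfl⟩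
    have hne : S.Nonempty := by rw [hS]; exact insert_nonempty _ _
    refine ⟨S.min' hne, ?_, S.min'_le _ (by rw [hS]; exact mem_insert_self _ _),
      fun j => S.min'_le _ (by rw [hS]; exact mem_insert_of_mem (mem_image_of_mem c (mem_univ j)))⟩
    have h1 := S.min'_mem hne
    obtain ⟨x, hx⟩ : ∃ x, x = S.min' hne := ⟨_, rfl⟩
    rw [← hx] at h1 ⊢
    rw [hS, mem_insert, mem_image] at h1
    rcases h1 with h1 | ⟨j, _, h1⟩
    · rw [h1]; norm_num
    · rw [← h1]; exact hc j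
  obtain ⟨K, hK⟩ := exists_pow_lt_of_lt_one (by positivity : 0 < η / (4 * ((J : ℝ) + 1))) (by linarith : 1 - c₀ < 1)
  refine ⟨K, ?_⟩
  have hs : ∀ᶠ s : ℕ in atTop, ∀ j : Fin J,
      c₀ ≤ sw (fun u : ℤ => ge1 ⌈(s : ℝ) / 2 + ((j : ℕ) * D) * √s⌉ u * le1 ⌊(s : ℝ) / 2 + ((j : ℕ) * D + 1) * √s⌋ u) s 0 := by
    rw [eventually_all]
    intro j
    filter_upwards [hcs j] with s h
    exact (hc₀c j).trans h
  obtain ⟨s₀, hs₀⟩ := eventually_atTop.1 hs
  filter_upwards [hUG, eventually_ge_atTop ⌈(s₀ : ℝ) / ρ'⌉₊] with k h1 h2 s h4 _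
  have hss : s₀ ≤ s := by
    have h5 : (s₀ : ℝ) / ρ' ≤ k := (Nat.le_ceil _).trans (by exact_mod_cast h2)
    rw [div_le_iff₀ hρ'] at h5
    exact_mod_cast (by linarith : (s₀ : ℝ) ≤ s)
  have hmass := hs₀ s hss
  obtain ⟨f, hf⟩ : ∃ f : Fin J → ℤ → ℝ, f = fun (j : Fin J) (u : ℤ) =>
    ge1 ⌈(s : ℝ) / 2 + ((j : ℕ) * D) * √s⌉ u * le1 ⌊(s : ℝ) / 2 + ((j : ℕ) * D + 1) * √s⌋ u := ⟨_, rfl⟩
  have hmass' : ∀ j, c₀ ≤ sw (f j) s 0 := fun j => by rw [hf]; exact hmass j
  have hf01 : ∀ j u, f j u = 0 ∨ (f j u = 1 ∧ (s : ℝ) / 2 + ((j : ℕ) * D) * √s ≤ u ∧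
      (u : ℝ) ≤ (s : ℝ) / 2 + ((j : ℕ) * D + 1) * √s) := by
    intro j u
    rw [hf]
    simp only [ge1, le1]
    by_cases ha : ⌈(s : ℝ) / 2 + ((j : ℕ) * D) * √s⌉ ≤ u
    · by_cases hb : u ≤ ⌊(s : ℝ) / 2 + ((j : ℕ) * D + 1) * √s⌋
      · right
        rw [if_pos ha, if_pos hb]
        exact ⟨by norm_num, Int.ceil_le.1 ha, Int.le_floor.1 hb⟩
      · left
        rw [if_neg hb, mul_zero]
    · left
      rw [if_neg ha, zero_mul]
  have hf1 : ∀ j u, 0 ≤ 1 - f j u := by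
    intro j u
    rcases hf01 j u with h | ⟨h, _, _⟩ <;> rw [h] <;> norm_num
  -- distances
  have hks : G * √(k : ℝ) ≤ (D - 1) * √(s : ℝ) := by
    have h5 : √ρ' * √(k : ℝ) ≤ √(s : ℝ) := by
      rw [← Real.sqrt_mul hρ'.le]
      exact Real.sqrt_le_sqrt h4
    have h6 : D - 1 = G / √ρ' := by rw [hD]; ring
    rw [h6]
    calc G * √(k : ℝ) = G / √ρ' * (√ρ' * √(k : ℝ)) := by field_simp
      _ ≤ G / √ρ' * √(s : ℝ) := mul_le_mul_of_nonneg_left h5 (by positivity)
  have hδJ : 0 ≤ δ ^ J := pow_nonneg hδ0 J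
  -- pointwise
  have hpt : ∀ z : Fin (K + 1) → ℤ, cw (fun u => δ ^ nc u) k z ≤
      (δ ^ J + (J : ℝ) ^ 2 * e) + ∑ j : Fin J, ∏ i, (1 - f j (z i)) := by
    intro z
    have hp : ∀ j : Fin J, 0 ≤ ∏ i, (1 - f j (z i)) := fun j => prod_nonneg fun i _ => hf1 j (z i)
    by_cases h : ∀ j : Fin J, ∃ i, f j (z i) ≠ 0
    · choose r hr using h
      have h5 := cw_pt hδ0 hδ1.le he0.le r z (k := k) (fun j j' hjj => by
        obtain ⟨_, _, a2⟩ := (hf01 j (z (r j))).resolve_left (hr j)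
        obtain ⟨_, b1, _⟩ := (hf01 j' (z (r j'))).resolve_left (hr j')
        refine h1 _ ?_
        refine le_trans ?_ (le_abs_self _)
        push_cast
        have h6 : ((j : ℕ) : ℝ) + 1 ≤ (j' : ℕ) := by exact_mod_cast hjj
        have h7 : (((j : ℕ) : ℝ) + 1) * D ≤ (j' : ℕ) * D := mul_le_mul_of_nonneg_right h6 (by linarith)
        have h8 : ((((j : ℕ) : ℝ) + 1) * D) * √(s : ℝ) ≤ ((j' : ℕ) * D) * √(s : ℝ) :=
          mul_le_mul_of_nonneg_right h7 (Real.sqrt_nonneg _)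
        nlinarith)
      have h6 : 0 ≤ ∑ j : Fin J, ∏ i, (1 - f j (z i)) := sum_nonneg fun j _ => hp j
      linarith
    · push Not at h
      obtain ⟨j, hj⟩ := h
      have h5 : ∏ i, (1 - f j (z i)) = 1 := by
        apply prod_eq_one
        intro i _
        rw [hj i, sub_zero]
      have h6 : (1 : ℝ) ≤ ∑ j : Fin J, ∏ i, (1 - f j (z i)) :=
        h5.symm.le.trans
          (single_le_sum (f := fun j : Fin J => ∏ i, (1 - f j (z i))) (fun a _ => hp a) (mem_univ j))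
      have hE := isE_cw k z
      have h7 : cw (fun u => δ ^ nc u) k z ≤ 1 := by
        refine (hE.mono _ (fun _ => 1) (fun u => pow_le_one₀ hδ0 hδ1.le)).trans ?_
        rw [hE.one]
      have h8 : 0 ≤ (J : ℝ) ^ 2 * e := by positivity
      linarith
  have hE := isE_iw (k := K + 1) s (fun _ => 0)
  refine (hE.mono _ _ hpt).trans ?_
  rw [hE.add, hE.const, hE.sum]
  have h5 : ∀ j ∈ (univ : Finset (Fin J)), iw (fun z : Fin (K + 1) → ℤ => ∏ i, (1 - f j (z i))) s (fun _ => 0) ≤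
      η / (4 * ((J : ℝ) + 1)) := by
    intro j _
    rw [iw_prod (fun x => 1 - f j x)]
    have e1 : sw (fun x => 1 - f j x) s 0 = 1 - sw (f j) s 0 := by
      have e2 : (fun x => 1 - f j x) = fun x => (1 : ℝ) + (-1) * f j x := by
        funext x
        ring
      rw [e2, sw_add (fun _ => 1) (fun x => (-1) * f j x), sw_smul, sw_const]
      ring
    have h6 : 0 ≤ sw (fun x => 1 - f j x) s 0 := sw_nonneg (fun x => hf1 j x) s 0
    have h7 : sw (fun x => 1 - f j x) s 0 ≤ 1 - c₀ := by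
      rw [e1]
      linarith [hmass' j]
    calc (sw (fun x => 1 - f j x) s 0) ^ (K + 1) ≤ (1 - c₀) ^ (K + 1) := pow_le_pow_left₀ h6 h7 _
      _ ≤ (1 - c₀) ^ K := pow_le_pow_of_le_one (by linarith) (by linarith) (Nat.le_succ K)
      _ ≤ _ := hK.le
  have h6 := sum_le_sum h5
  rw [sum_const, card_univ, Fintype.card_fin, nsmul_eq_mul] at h6
  have h7 : (J : ℝ) * (η / (4 * ((J : ℝ) + 1))) ≤ η / 4 := by
    rw [mul_div_assoc', div_le_div_iff₀ (by positivity) (by positivity)]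
    nlinarith
  have h8 : (J : ℝ) ^ 2 * e ≤ η / 4 := by
    rw [he, mul_div_assoc', div_le_div_iff₀ (by positivity) (by positivity)]
    nlinarith
  linarith

end Pool.Agent.J4H30.KP.Inf

namespace Pool.Agent.J4H30.KP

open Pool.Agent.J4H26.KP

theorem t_INF : S_UFAR → S_MASS → S_INF := Inf.t_INF

end Pool.Agent.J4H30.KP
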